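import Mathlib
import Pool.Agent.Helper14_RF.Flow

/-!
# The reaction equation of the Ricci flow does not preserve the curvature condition

In every dimension `n ≥ 4` there is a solution of the reaction equation `R' = Q(R)` of the Ricci
flow (the equation satisfied by the curvature tensor, without the Laplacian, in an evolving
orthonormal frame) which starts at an algebraic curvature tensor with positive curvature operator
of the second kind and which, at a later time, does not even have nonnegative curvature operator
of the second kind.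
-/

set_option autoImplicit false

namespace Pool.Agent.Results.MP_a23110_gt.OdeNotPreserved

open Pool.Agent.Helper14_RF

/-- For every `n ≥ 4`, positivity of the curvature operator of the second kind is not preserved by
the reaction equation of the Ricci flow. -/
theorem result (n : ℕ) (hn : 4 ≤ n) :
    ∃ (T : ℝ) (R : ℝ → Tensor n), 0 < T ∧ (∀ t ∈ Set.Icc 0 T, IsCurv (R t)) ∧
      (∀ t ∈ Set.Icc 0 T, HasDerivAt R (Q (R t)) t) ∧
      PosSecondKind (R 0) ∧ ¬ NonnegSecondKind (R T) := by
  let x : Fin n := ⟨0, by omega⟩
  let y : Fin n := ⟨1, by omega⟩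
  let z : Fin n := ⟨2, by omega⟩
  let w : Fin n := ⟨3, by omega⟩
  have hxy : x ≠ y := by simp [x, y]
  have hxz : x ≠ z := by simp [x, z]
  have hxw : x ≠ w := by simp [x, w]
  have hyz : y ≠ z := by simp [y, z]
  have hyw : y ≠ w := by simp [y, w]
  have hzw : z ≠ w := by simp [z, w]
  have hneg : qform (Q (R0 x y z w)) (phi0 x y z w) < 0 := by
    rw [qform_Q_phi0 hxy hxz hxw hyz hyw hzw]
    have : (4 : ℝ) ≤ n := by exact_mod_cast hn
    linarith
  obtain ⟨T, R, hT, hc, hd, hp, hq⟩ := exists_solution (isCurv_R0 x y z w)
    (nonneg_R0 hxy hxz hxw hyz hyw hzw) (qform_R0_phi0 hxy hxz hxw hyz hyw hzw) hneg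
  refine ⟨T, R, hT, hc, hd, hp, fun hcon => ?_⟩
  have := hcon (phi0 x y z w) (phi0_symm x y z w) (phi0_trace x y z w)
  linarith

end Pool.Agent.Results.MP_a23110_gt.OdeNotPreserved
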