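import Pool.Agent.Helper36_RF.All

/-!
# MP_a23110_gt, Q1: positivity of the curvature operator of the second kind is not preserved

Negative answer to Q1 in every dimension `n ≥ 5`.  The metrics `g 0` are metrics on the sphere
`S^n` invariant under `O(n-2) × O(3)` and close to the round one.  At the singular orbit
`S^(n-3)` of a limiting metric the condition degenerates, and its time derivative under the Ricci
flow is negative; the flows of the approximating positive metrics are constructed (local existence
for the Ricci-DeTurck flow near the round metric, with continuous dependence on the initial
metric), and leave even the closed cone of nonnegative curvature operators of the second kind.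
The definitions used in the statement are in `Pool/Agent/Helper36_RF/Cl.lean`.
-/

noncomputable section

namespace Pool.Agent.Results.MP_a23110_gt.SecondKindNotPreserved

open Pool.Agent.SecondKind

/-- For every `n ≥ 5` there is a maximal Ricci flow `g t`, `t ∈ [0,T)`, `T ≤ ∞`, on the closed
manifold `S^n` such that `g 0` has positive curvature operator of the second kind and, for some
`t ∈ (0,T)`, `g t` does not have nonnegative curvature operator of the second kind. -/
theorem result :
    ∀ n : ℕ, 5 ≤ n → ∃ (T : EReal) (g : ℝ → Form n), 0 < T ∧ IsMaximalRicciFlow T g ∧
      PosSecondKind (g 0) ∧ ∃ t : ℝ, 0 < t ∧ (t : EReal) < T ∧ ¬ NonnegSecondKind (g t) :=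
  Pool.Agent.RF.finalTheorem

end Pool.Agent.Results.MP_a23110_gt.SecondKindNotPreserved
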